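import Pool.Agent.MP_984ac2_an.Statement
import Pool.Agent.MP_984ac2_an.Lower

set_option autoImplicit false

open scoped ENNReal

namespace Pool.Agent.Results.MP_984ac2_an.NormFormula

open Pool.Agent.MP_984ac2_an

/-- For every `1 ≤ p < ∞`, the bounded compact approximation constant `M(H^p)` of the Hardy space
`H^p` of the circle equals the operator norm of `I - K₀` on `H^p`, where `K₀ f = \hat f(0)`:
`M(H^p) = ‖I - K₀‖`. -/
theorem result (p : ℝ≥0∞) [Fact (1 ≤ p)] (hp : p ≠ ∞) :
    bcapConst (Hardy p) = normIdSub (K0 p) := by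
  have h : K0 p = K0H p := ContinuousLinearMap.ext (K0_eq p)
  rw [h]
  exact bcapConstant_Hp hp

end Pool.Agent.Results.MP_984ac2_an.NormFormula
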