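import Pool.Agent.MP_984ac2_an.TwFin

set_option autoImplicit false

open Filter Topology
open scoped ENNReal

namespace Pool.Agent.Results.MP_984ac2_an.TwoSided

open Pool.Agent.MP_984ac2_an

/-- The bounded compact approximation constant `M(H^p)` of the Hardy space `H^p` of the circle is
`m(p)` for a real function `m` with, for every `1 ≤ p < ∞`,
`1 + (1 - 2/p)² / 12800 ≤ m(p) ≤ 1 + 81 (1 - 2/p)²` and `|m(p) - (2 - (3/2) (log p)/p)| ≤ 200/p`,
and with `p (m(p) - 2) + (3/2) log p → -log (8 e √π)` as `p → ∞`, that is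
`M(H^p) = 2 - ((3/2) log p + log (8 e √π))/p + o(1/p)`. -/
theorem result :
    ∃ m : ℝ → ℝ, (∀ (p : ℝ≥0∞) [Fact (1 ≤ p)], p ≠ ∞ →
        bcapConst (Hardy p) = ENNReal.ofReal (m p.toReal) ∧
        1 + (1 - 2 / p.toReal) ^ 2 / 12800 ≤ m p.toReal ∧
        m p.toReal ≤ 1 + 81 * (1 - 2 / p.toReal) ^ 2 ∧
        |m p.toReal - (2 - 3 / 2 * (Real.log p.toReal / p.toReal))| ≤ 200 / p.toReal) ∧
      Tendsto (fun r : ℝ => r * (m r - 2) + 3 / 2 * Real.log r) atTop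
        (𝓝 (-Real.log (8 * Real.exp 1 * √Real.pi))) := by
  refine ⟨Mr, fun p _ hp => ?_, tendsto_Mr⟩
  have h1 : bcapConstant (Hp p) = ENNReal.ofReal ‖ContinuousLinearMap.id ℂ (Hp p) - K0H p‖ :=
    enorm_sub_K0H_eq hp rfl
  rw [Mr_toReal p hp]
  exact ⟨h1, lower_all hp, upper_all hp, expansion hp⟩

end Pool.Agent.Results.MP_984ac2_an.TwoSided
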