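import Pool.Agent.MP_984ac2_an.Statement
import Pool.Agent.MP_984ac2_an.ValueOne

set_option autoImplicit false

open scoped ENNReal

namespace Pool.Agent.Results.MP_984ac2_an.ValueH1

open Pool.Agent.MP_984ac2_an

/-- The bounded compact approximation constant of the Hardy space `H^1` of the circle is
`M(H^1) = 2 / √3`. -/
theorem result : bcapConst (Hardy 1) = ENNReal.ofReal (2 / Real.sqrt 3) :=
  bcapConstant_one

end Pool.Agent.Results.MP_984ac2_an.ValueH1
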