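import Pool.Agent.MP_984ac2_an.Statement
import Pool.Agent.MP_984ac2_an.Values

set_option autoImplicit false

open scoped ENNReal

namespace Pool.Agent.Results.MP_984ac2_an.ValueH4

open Pool.Agent.MP_984ac2_an

/-- The bounded compact approximation constant of the Hardy space `H^4` of the circle is
`M(H^4) = φ ^ (1/4)`, where `φ = (1 + √5) / 2` is the golden ratio. -/
theorem result :
    bcapConst (Hardy 4) = ENNReal.ofReal (Real.goldenRatio ^ (1 / 4 : ℝ)) :=
  bcapConstant_four

end Pool.Agent.Results.MP_984ac2_an.ValueH4
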